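import Pool.Agent.TH819.PM.All3

/-! Large positive and large negative deviations from the mean, and large leads in the race of the
reduced residue classes, for every modulus in a range. -/

set_option autoImplicit false

open Finset

namespace Pool.Agent.Q258.RM

open H343 H343.KF H336V TH819.PL TH819.PM

/-- If the deviations `D` have sum `0`, are at most `Dm` and have a large `p`-th moment, then many
of them are large and positive. -/
lemma one_side {p : ℝ} (hp : 1 < p) (S : Finset ℕ) (D : ℕ → ℝ) {W Dm : ℝ} (hW : 0 ≤ W)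
    (hDm : 0 < Dm) (hD : ∀ A ∈ S, |D A| ≤ Dm) (h0 : ∑ A ∈ S, D A = 0)
    (h : S.card * W ^ p ≤ ∑ A ∈ S, |D A| ^ p) :
    S.card * (W ^ p / (4 * Dm ^ p)) ≤
      ((S.filter (fun A => W ^ p / (4 * Dm ^ (p - 1)) ≤ D A)).card : ℝ) := by
  set T := W ^ p / (4 * Dm ^ (p - 1)) with hT
  have hT0 : 0 ≤ T := by positivity
  have hDp : 0 < Dm ^ (p - 1) := by positivity
  have hDpp : Dm ^ p = Dm ^ (p - 1) * Dm := by
    rw [← Real.rpow_add_one hDm.ne']
    congr 1
    ring
  -- the `p`-th moment against the first moment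
  have h1 : ∑ A ∈ S, |D A| ^ p ≤ Dm ^ (p - 1) * ∑ A ∈ S, |D A| := by
    rw [mul_sum]
    apply sum_le_sum
    intro A hA
    rcases eq_or_lt_of_le (abs_nonneg (D A)) with h2 | h2
    · rw [← h2, Real.zero_rpow (by linarith)]
      simp
    · have h3 : |D A| ^ p = |D A| ^ (p - 1) * |D A| := by
        rw [← Real.rpow_add_one h2.ne']
        congr 1
        ring
      rw [h3]
      apply mul_le_mul_of_nonneg_right _ h2.le
      exact Real.rpow_le_rpow h2.le (hD A hA) (by linarith)
  -- the first moment against the positive part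
  have h2 : ∑ A ∈ S, |D A| = 2 * ∑ A ∈ S, max (D A) 0 := by
    have h3 : ∀ A ∈ S, |D A| = 2 * max (D A) 0 - D A := by
      intro A _
      rcases le_total 0 (D A) with h4 | h4
      · rw [abs_of_nonneg h4, max_eq_left h4]
        ring
      · rw [abs_of_nonpos h4, max_eq_right h4]
        ring
    rw [sum_congr rfl h3, sum_sub_distrib, h0, ← mul_sum, sub_zero]
  have h3 : ∑ A ∈ S, max (D A) 0 ≤ S.card * T +
      ((S.filter (fun A => T ≤ D A)).card : ℝ) * Dm := by
    have h4 : ∀ A ∈ S, max (D A) 0 ≤ T + if T ≤ D A then Dm else 0 := by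
      intro A hA
      have h5 : D A ≤ Dm := (le_abs_self _).trans (hD A hA)
      split_ifs with h6
      · exact max_le (by linarith) (by linarith)
      · push Not at h6
        exact max_le (by linarith) (by linarith)
    refine (sum_le_sum h4).trans_eq ?_
    rw [sum_add_distrib, sum_const, nsmul_eq_mul, ← sum_filter, sum_const, nsmul_eq_mul]
  have h4 : (S.card : ℝ) * W ^ p ≤ Dm ^ (p - 1) * (2 * (S.card * T +
      ((S.filter (fun A => T ≤ D A)).card : ℝ) * Dm)) := by
    refine h.trans (h1.trans ?_)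
    rw [h2]
    gcongr
  have h5 : Dm ^ (p - 1) * T = W ^ p / 4 := by
    rw [hT]
    field_simp
  have h6 : (S.card : ℝ) * W ^ p ≤ S.card * W ^ p / 2 +
      2 * ((S.filter (fun A => T ≤ D A)).card : ℝ) * Dm ^ p := by
    calc (S.card : ℝ) * W ^ p ≤ _ := h4
      _ = 2 * S.card * (Dm ^ (p - 1) * T) +
          2 * ((S.filter (fun A => T ≤ D A)).card : ℝ) * (Dm ^ (p - 1) * Dm) := by ring
      _ = _ := by rw [h5, ← hDpp]; ring
  have hDp' : 0 < Dm ^ p := by positivity
  rw [← mul_div_assoc, div_le_iff₀ (by positivity)]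
  linarith

/-- The mean of the prime sums over the reduced residue classes. -/
noncomputable def mean (X : ℝ) (K : ℕ) : ℝ :=
  (∑ A ∈ (range K).filter (fun A => A.Coprime K), psiA X K A) / Nat.totient K

theorem two_sided (m : ℕ) (hm : 2 ≤ m) (δ : ℝ) (hδ : 0 < δ) :
    ∃ c X0 : ℝ, 0 < c ∧ ∀ X : ℝ, X0 ≤ X → ∀ K : ℕ, (K : ℝ) ≤ X →
      X ≤ K * X ^ (1 / (2 * (m : ℝ)) - δ) → ∀ S R : ℝ,
      S = Real.sqrt (X / Nat.totient K * (1 + Real.log (X / K))) →
      R = X / Nat.totient K * Real.log X →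
      (c * Nat.totient K * (S / R) ^ (2 * (m : ℝ) / (2 * m - 1)) ≤
        ((((range K).filter (fun A => A.Coprime K)).filter (fun A =>
          mean X K + c * S * (S / R) ^ (1 / (2 * (m : ℝ) - 1)) ≤ psiA X K A)).card : ℝ)) ∧
      (c * Nat.totient K * (S / R) ^ (2 * (m : ℝ) / (2 * m - 1)) ≤
        ((((range K).filter (fun A => A.Coprime K)).filter (fun A =>
          psiA X K A ≤ mean X K - c * S * (S / R) ^ (1 / (2 * (m : ℝ) - 1)))).card : ℝ)) ∧
      (c * (Nat.totient K) ^ 2 * (S / R) ^ (2 * (m : ℝ) / (2 * m - 1)) ≤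
        (((((range K).filter (fun A => A.Coprime K)) ×ˢ
          ((range K).filter (fun A => A.Coprime K))).filter (fun P : ℕ × ℕ =>
          psiA X K P.2 + c * S ≤ psiA X K P.1)).card : ℝ)) := by
  have hm0 : (2 : ℝ) ≤ m := by exact_mod_cast hm
  obtain ⟨c, X0, hc, h⟩ := ap_all3 m hm δ hδ
  set p : ℝ := 2 * (m : ℝ) / (2 * m - 1) with hp
  have hm1 : 0 < 2 * (m : ℝ) - 1 := by linarith
  have hp1 : p - 1 = 1 / (2 * (m : ℝ) - 1) := by
    rw [hp]
    field_simp
    ring
  have hp2 : 1 < p := by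
    have : 0 < 1 / (2 * (m : ℝ) - 1) := by positivity
    linarith
  set c1 : ℝ := c ^ p / (8 * 2 ^ (p - 1)) with hc1
  have hc1' : 0 < c1 := by positivity
  set c2 : ℝ := (c / 4) ^ p / 2 with hc2
  have hc2' : 0 < c2 := by positivity
  set c0 : ℝ := min (min c1 c2) (c / 2) with hc0
  have hc0' : 0 < c0 := by positivity
  have hc01 : c0 ≤ c1 := (min_le_left _ _).trans (min_le_left _ _)
  have hc02 : c0 ≤ c2 := (min_le_left _ _).trans (min_le_right _ _)
  have hc03 : c0 ≤ c / 2 := min_le_right _ _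
  refine ⟨c0, X0, hc0', fun X hX K hKX hXK S R hS hR => ?_⟩
  obtain ⟨hK1, hlog, h2⟩ := h X hX K hKX hXK
  have hK0 : (0 : ℝ) < K := by exact_mod_cast hK1
  have hX0' : 0 < X := by linarith
  have hφ : (0 : ℝ) < Nat.totient K := by exact_mod_cast Nat.totient_pos.2 hK1
  set G := (range K).filter (fun A => A.Coprime K) with hG
  have hGcard : (G.card : ℝ) = Nat.totient K := by rw [hG, card_red']
  have hS0 : 0 ≤ S := by rw [hS]; exact Real.sqrt_nonneg _
  rw [← hS] at h2
  have hR0 : 0 < R := by rw [hR]; positivity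
  have hψle : ∀ A, psiA X K A ≤ 2 * R := by
    intro A
    have h3 := psiA_le (A := A) hK1 hKX
    have hφk : (Nat.totient K : ℝ) ≤ K := by exact_mod_cast Nat.totient_le K
    have h4 : X / K ≤ X / Nat.totient K := by gcongr
    have h5 : X / K * Real.log X ≤ X / Nat.totient K * Real.log X := by gcongr
    rw [hR]
    linarith
  have hψ0 : ∀ A, 0 ≤ psiA X K A := fun A => psiA_nonneg X K A
  have hmean0 : 0 ≤ mean X K := by
    unfold mean
    apply div_nonneg (sum_nonneg fun A _ => hψ0 A) hφ.le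
  have hmean1 : mean X K ≤ 2 * R := by
    unfold mean
    rw [div_le_iff₀ hφ]
    calc ∑ A ∈ G, psiA X K A ≤ ∑ A ∈ G, 2 * R := sum_le_sum fun A _ => hψle A
      _ = 2 * R * Nat.totient K := by
        rw [sum_const, nsmul_eq_mul, hGcard]
        ring
  have hsum0 : ∑ A ∈ G, (psiA X K A - mean X K) = 0 := by
    rw [sum_sub_distrib, sum_const, nsmul_eq_mul, hGcard]
    unfold mean
    rw [mul_div_cancel₀ _ hφ.ne', sub_self]
  have hDle : ∀ A ∈ G, |psiA X K A - mean X K| ≤ 2 * R := by
    intro A _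
    rw [abs_le]
    constructor
    · linarith [hψ0 A]
    · linarith [hψle A]
  have hW0 : 0 ≤ c * S := by positivity
  have h2R : (0 : ℝ) < 2 * R := by positivity
  have hSR0 : 0 ≤ S / R := by positivity
  -- the threshold
  have hthr : (c * S) ^ p / (4 * (2 * R) ^ (p - 1)) = 2 * c1 * S * (S / R) ^ (p - 1) := by
    rcases eq_or_lt_of_le hS0 with h3 | h3
    · rw [← h3]
      rw [mul_zero, Real.zero_rpow (by linarith)]
      simp
    · rw [Real.mul_rpow hc.le hS0, Real.mul_rpow (by norm_num) hR0.le, Real.div_rpow hS0 hR0.le]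
      have h4 : S ^ p = S ^ (p - 1) * S := by
        rw [← Real.rpow_add_one h3.ne']
        congr 1
        ring
      rw [h4, hc1]
      have h5 : 0 < R ^ (p - 1) := by positivity
      field_simp
      norm_num
  have hcnt : (c * S) ^ p / (4 * (2 * R) ^ p) = c1 * (S / R) ^ p := by
    rw [Real.mul_rpow hc.le hS0, Real.mul_rpow (by norm_num) hR0.le, Real.div_rpow hS0 hR0.le]
    have h4 : (2 : ℝ) ^ p = 2 ^ (p - 1) * 2 := by
      rw [← Real.rpow_add_one (by norm_num)]
      congr 1
      ring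
    rw [h4, hc1]
    have h5 : 0 < R ^ p := by positivity
    field_simp
    ring
  have hthr2 : c0 * S * (S / R) ^ (p - 1) ≤ (c * S) ^ p / (4 * (2 * R) ^ (p - 1)) := by
    rw [hthr]
    have h3 : 0 ≤ S * (S / R) ^ (p - 1) := by positivity
    calc c0 * S * (S / R) ^ (p - 1) = c0 * (S * (S / R) ^ (p - 1)) := by ring
      _ ≤ (2 * c1) * (S * (S / R) ^ (p - 1)) := by
          apply mul_le_mul_of_nonneg_right _ h3
          linarith
      _ = _ := by ring
  rw [← hp1]
  refine ⟨?_, ?_, ?_⟩
  · have h3 := one_side hp2 G (fun A => psiA X K A - mean X K) hW0 h2R hDle hsum0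
      (by rw [hGcard]; exact h2 (mean X K) p le_rfl)
    rw [hGcard, hcnt] at h3
    have h4 : c0 * Nat.totient K * (S / R) ^ p ≤ Nat.totient K * (c1 * (S / R) ^ p) := by
      have h6 : 0 ≤ (Nat.totient K : ℝ) * (S / R) ^ p := by positivity
      calc c0 * Nat.totient K * (S / R) ^ p = c0 * (Nat.totient K * (S / R) ^ p) := by ring
        _ ≤ c1 * (Nat.totient K * (S / R) ^ p) := mul_le_mul_of_nonneg_right hc01 h6
        _ = _ := by ring
    refine h4.trans (h3.trans ?_)
    have h5 : G.filter (fun A => (c * S) ^ p / (4 * (2 * R) ^ (p - 1)) ≤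
        psiA X K A - mean X K) ⊆ G.filter (fun A =>
        mean X K + c0 * S * (S / R) ^ (p - 1) ≤ psiA X K A) := by
      intro A hA
      rw [mem_filter] at hA ⊢
      exact ⟨hA.1, by linarith [hA.2]⟩
    exact_mod_cast card_le_card h5
  · have h3 := one_side hp2 G (fun A => -(psiA X K A - mean X K)) hW0 h2R
      (by intro A hA; rw [abs_neg]; exact hDle A hA)
      (by rw [sum_neg_distrib, hsum0, neg_zero])
      (by
        rw [hGcard]
        simp only [abs_neg]
        exact h2 (mean X K) p le_rfl)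
    rw [hGcard, hcnt] at h3
    have h4 : c0 * Nat.totient K * (S / R) ^ p ≤ Nat.totient K * (c1 * (S / R) ^ p) := by
      have h6 : 0 ≤ (Nat.totient K : ℝ) * (S / R) ^ p := by positivity
      calc c0 * Nat.totient K * (S / R) ^ p = c0 * (Nat.totient K * (S / R) ^ p) := by ring
        _ ≤ c1 * (Nat.totient K * (S / R) ^ p) := mul_le_mul_of_nonneg_right hc01 h6
        _ = _ := by ring
    refine h4.trans (h3.trans ?_)
    have h5 : G.filter (fun A => (c * S) ^ p / (4 * (2 * R) ^ (p - 1)) ≤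
        -(psiA X K A - mean X K)) ⊆ G.filter (fun A =>
        psiA X K A ≤ mean X K - c0 * S * (S / R) ^ (p - 1)) := by
      intro A hA
      rw [mem_filter] at hA ⊢
      exact ⟨hA.1, by linarith [hA.2]⟩
    exact_mod_cast card_le_card h5
  · -- pairs
    have h3 : ∀ B ∈ G, (Nat.totient K : ℝ) * (c * S / 2 / (2 * R)) ^ p ≤
        ((G.filter (fun A => c * S / 2 ≤ |psiA X K A - psiA X K B|)).card : ℝ) := by
      intro B _
      refine large_fin hp2.le G (by rw [hG, card_red']) (fun A => psiA X K A - psiA X K B)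
        hW0 h2R ?_ (h2 (psiA X K B) p le_rfl)
      intro A _
      rw [abs_le]
      constructor
      · linarith [hψ0 A, hψle B]
      · linarith [hψle A, hψ0 B]
    have e1 : c * S / 2 / (2 * R) = c / 4 * (S / R) := by
      field_simp
      norm_num
    have h4 : (Nat.totient K : ℝ) * (Nat.totient K * ((c / 4) ^ p * (S / R) ^ p)) ≤
        (((G ×ˢ G).filter (fun P : ℕ × ℕ =>
          c * S / 2 ≤ |psiA X K P.1 - psiA X K P.2|)).card : ℝ) := by
      have h5 : (((G ×ˢ G).filter (fun P : ℕ × ℕ =>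
          c * S / 2 ≤ |psiA X K P.1 - psiA X K P.2|)).card : ℝ) =
          ∑ B ∈ G, ((G.filter (fun A => c * S / 2 ≤ |psiA X K A - psiA X K B|)).card : ℝ) := by
        rw [card_filter, Nat.cast_sum, sum_product_right]
        apply sum_congr rfl
        intro B _
        rw [card_filter, Nat.cast_sum]
      rw [h5]
      calc (Nat.totient K : ℝ) * (Nat.totient K * ((c / 4) ^ p * (S / R) ^ p)) =
            ∑ B ∈ G, (Nat.totient K : ℝ) * (c * S / 2 / (2 * R)) ^ p := by
            rw [sum_const, nsmul_eq_mul, hGcard, e1, Real.mul_rpow (by positivity) hSR0]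
        _ ≤ _ := sum_le_sum h3
    -- split by the sign
    set Pp := (G ×ˢ G).filter (fun P : ℕ × ℕ => psiA X K P.2 + c * S / 2 ≤ psiA X K P.1)
      with hPp
    set Pm := (G ×ˢ G).filter (fun P : ℕ × ℕ => psiA X K P.1 + c * S / 2 ≤ psiA X K P.2)
      with hPm
    have h5 : (G ×ˢ G).filter (fun P : ℕ × ℕ =>
        c * S / 2 ≤ |psiA X K P.1 - psiA X K P.2|) ⊆ Pp ∪ Pm := by
      intro P hP
      rw [mem_filter] at hP
      rw [mem_union, hPp, hPm, mem_filter, mem_filter]
      rcases le_total 0 (psiA X K P.1 - psiA X K P.2) with h6 | h6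
      · left
        refine ⟨hP.1, ?_⟩
        have := hP.2
        rw [abs_of_nonneg h6] at this
        linarith
      · right
        refine ⟨hP.1, ?_⟩
        have := hP.2
        rw [abs_of_nonpos h6] at this
        linarith
    have h6 : Pm.card = Pp.card := by
      apply card_bij (fun P _ => (P.2, P.1))
      · intro P hP
        rw [hPm, mem_filter, mem_product] at hP
        rw [hPp, mem_filter, mem_product]
        exact ⟨⟨hP.1.2, hP.1.1⟩, hP.2⟩
      · intro P _ Q _ hPQ
        have h7 := congrArg Prod.fst hPQ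
        have h8 := congrArg Prod.snd hPQ
        exact Prod.ext h8 h7
      · intro P hP
        rw [hPp, mem_filter, mem_product] at hP
        refine ⟨(P.2, P.1), ?_, rfl⟩
        rw [hPm, mem_filter, mem_product]
        exact ⟨⟨hP.1.2, hP.1.1⟩, hP.2⟩
    have h7 : (((G ×ˢ G).filter (fun P : ℕ × ℕ =>
        c * S / 2 ≤ |psiA X K P.1 - psiA X K P.2|)).card : ℝ) ≤ 2 * (Pp.card : ℝ) := by
      have h8 := (card_le_card h5).trans (card_union_le Pp Pm)
      rw [h6] at h8
      have h9 : (((G ×ˢ G).filter (fun P : ℕ × ℕ =>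
        c * S / 2 ≤ |psiA X K P.1 - psiA X K P.2|)).card : ℝ) ≤ ((Pp.card + Pp.card : ℕ) : ℝ) := by
        exact_mod_cast h8
      push_cast at h9
      linarith
    have h8 : (Pp.card : ℝ) ≤ (((G ×ˢ G).filter (fun P : ℕ × ℕ =>
          psiA X K P.2 + c0 * S ≤ psiA X K P.1)).card : ℝ) := by
      have h9 : Pp ⊆ (G ×ˢ G).filter (fun P : ℕ × ℕ =>
          psiA X K P.2 + c0 * S ≤ psiA X K P.1) := by
        intro P hP
        rw [hPp, mem_filter] at hP
        rw [mem_filter]
        refine ⟨hP.1, ?_⟩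
        have : c0 * S ≤ c / 2 * S := by gcongr
        linarith [hP.2]
      exact_mod_cast card_le_card h9
    refine le_trans ?_ h8
    have h9 : c0 * (Nat.totient K : ℝ) ^ 2 * (S / R) ^ p ≤
        c2 * ((Nat.totient K : ℝ) ^ 2 * (S / R) ^ p) := by
      rw [mul_assoc]
      gcongr
    have h10 : c2 * ((Nat.totient K : ℝ) ^ 2 * (S / R) ^ p) =
        (Nat.totient K : ℝ) * (Nat.totient K * ((c / 4) ^ p * (S / R) ^ p)) / 2 := by
      rw [hc2]
      ring
    linarith

end Pool.Agent.Q258.RM
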